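import Mathlib

set_option autoImplicit false
open Complex Filter Topology Finset BoundedContinuousFunction

namespace Pool.Agent.H.MP_389529_an

variable {I : Type} [Fintype I]

/-- weighted exponentials -/
noncomputable def g (a : ℂ) (ha : ‖a‖ ≤ 1) : ℂ →ᵇ ℂ :=
  ofNormedAddCommGroup (fun z => cexp (a * z - ‖z‖)) (by fun_prop) 1 fun z => by
    rw [norm_exp, Real.exp_le_one_iff, sub_re, ofReal_re, sub_nonpos]
    exact (re_le_norm _).trans (by rw [norm_mul]; exact mul_le_of_le_one_left (norm_nonneg _) ha)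

variable (a : I → ℂ) (ha : ∀ i, ‖a i‖ ≤ 1)

/-- weighted exponential sums -/
noncomputable def ι : (I → ℂ) →ₗ[ℂ] (ℂ →ᵇ ℂ) := Fintype.linearCombination ℂ fun i => g (a i) (ha i)

theorem ι_apply (c : I → ℂ) (z : ℂ) : ι a ha c z = ∑ i, c i * cexp (a i * z - ‖z‖) := by
  simp [ι, Fintype.linearCombination_apply, g]

theorem trans (c : I → ℂ) (w : ℂ) :
    ‖ι a ha fun i => cexp (a i * w) * c i‖ ≤ Real.exp ‖w‖ * ‖ι a ha c‖ := by
  refine (norm_le (by positivity)).2 fun z => ?_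
  have : ι a ha (fun i => cexp (a i * w) * c i) z = cexp (‖z + w‖ - ‖z‖ : ℝ) * ι a ha c (z + w) := by
    simp only [ι_apply, mul_sum]
    refine sum_congr rfl fun i _ => ?_
    rw [mul_left_comm, ← exp_add, mul_comm (cexp _), mul_assoc, ← exp_add]
    congr 2
    push_cast
    ring
  rw [this, norm_mul, norm_exp_ofReal]
  exact mul_le_mul (Real.exp_le_exp.2 (by linarith [norm_add_le z w])) (norm_coe_le_norm _ _)
    (norm_nonneg _) (by positivity)

theorem der (c : I → ℂ) (u : ℂ) : HasDerivAt (fun t : ℝ => ι a ha fun i => cexp (a i * (t * u)) * c i)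
    (u • ι a ha (a * c)) 0 := by
  simp only [ι, Fintype.linearCombination_apply, smul_sum]
  refine HasDerivAt.fun_sum fun i _ => ?_
  have := ((((hasDerivAt_id (0 : ℝ)).ofReal_comp.mul_const u).const_mul (a i)).cexp.mul_const
    (c i)).smul_const (g (a i) (ha i))
  refine this.congr_deriv ?_
  rw [smul_smul]
  congr 1
  simp
  ring

theorem diss (c : I → ℂ) {l : ℂ} (hl : l ≠ 0) :
    (‖l‖ - 1) * ‖ι a ha c‖ ≤ ‖l • ι a ha c - ι a ha (a * c)‖ := by
  obtain ⟨u, u1, u2⟩ : ∃ u : ℂ, ‖u‖ = 1 ∧ u * l = ‖l‖ :=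
    ⟨‖l‖ / l, by simp [hl], by simp [hl]⟩
  have h1 := ((der a ha c u).tendsto_slope_zero_right.const_sub ((‖l‖ : ℂ) • ι a ha c)).norm
  have h2 := ((Real.hasDerivAt_exp 0).tendsto_slope_zero_right.const_sub ‖l‖).mul_const ‖ι a ha c‖
  rw [← u2, mul_smul, ← smul_sub, norm_smul, u1, one_mul, ← mul_smul, u2] at h1
  rw [Real.exp_zero] at h2
  refine le_of_tendsto_of_tendsto h2 h1 ?_
  filter_upwards [self_mem_nhdsWithin] with t (ht : 0 < t)
  have b := trans a ha c (t * u)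
  simp only [zero_add, ofReal_zero, zero_mul, mul_zero, exp_zero, one_mul, norm_mul, u1, mul_one,
    norm_real, Real.norm_of_nonneg ht.le, smul_eq_mul] at b ⊢
  generalize (ι a ha fun i => cexp (a i * (t * u)) * c i) = y at *
  have : (‖l‖ : ℂ) • ι a ha c - t⁻¹ • (y - ι a ha c) = (‖l‖ + t⁻¹) • ι a ha c - t⁻¹ • y := by
    rw [Complex.coe_smul]; module
  rw [this]
  refine le_trans ?_ (norm_sub_norm_le _ _)
  rw [norm_smul, norm_smul, Real.norm_of_nonneg (by positivity), Real.norm_of_nonneg (by positivity)]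
  nlinarith [mul_le_mul_of_nonneg_left b (inv_pos.2 ht).le]

theorem exT : ∃ T : (ι a ha).range →L[ℂ] (ι a ha).range,
    ∀ c, T ((ι a ha).rangeRestrict c) = (ι a ha).rangeRestrict (a * c) := by
  obtain ⟨σ, hσ⟩ := (ι a ha).rangeRestrict.exists_rightInverse_of_surjective
    (ι a ha).range_rangeRestrict
  refine ⟨LinearMap.toContinuousLinearMap ((ι a ha).rangeRestrict ∘ₗ LinearMap.mulLeft ℂ a ∘ₗ σ),
    fun c => Subtype.ext ?_⟩
  have e : ι a ha (σ ((ι a ha).rangeRestrict c) - c) = 0 := by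
    rw [map_sub, sub_eq_zero]
    exact congrArg Subtype.val (LinearMap.congr_fun hσ _)
  have := der a ha (σ ((ι a ha).rangeRestrict c) - c) 1
  rw [show (fun t : ℝ => ι a ha fun i => cexp (a i * (t * 1)) * (σ ((ι a ha).rangeRestrict c) - c) i)
    = fun _ => 0 from funext fun t => norm_le_zero_iff.1 ((trans a ha _ _).trans (by simp [e]))] at this
  have := this.unique (hasDerivAt_const _ _)
  rwa [one_smul, mul_sub, map_sub, sub_eq_zero] at this

theorem res {X : Type} [NormedAddCommGroup X] [NormedSpace ℂ X] [FiniteDimensional ℂ X]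
    {T : X →L[ℂ] X} {l : ℂ} (hl : 1 < ‖l‖) (h : ∀ x, (‖l‖ - 1) * ‖x‖ ≤ ‖l • x - T x‖) :
    l ∉ spectrum ℂ T ∧ ∀ k, ‖resolvent T l ^ (k + 1)‖ ≤ 1 / (‖l‖ - 1) ^ (k + 1) := by
  have p : 0 < ‖l‖ - 1 := by linarith
  have e : ∀ x, (algebraMap ℂ (X →L[ℂ] X) l - T) x = l • x - T x := fun x => by simp
  have i : Function.Injective (algebraMap ℂ (X →L[ℂ] X) l - T) :=
    (injective_iff_map_eq_zero _).2 fun x hx => by
      have := h x
      rw [← e, hx, norm_zero] at this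
      exact norm_le_zero_iff.1 (by nlinarith [norm_nonneg x])
  have := FiniteDimensional.complete ℂ X
  have u : IsUnit (algebraMap ℂ (X →L[ℂ] X) l - T) := ContinuousLinearMap.isUnit_iff_bijective.2
    ⟨i, LinearMap.injective_iff_surjective.1 i⟩
  refine ⟨not_not.2 u, fun k => (norm_pow_le' _ k.succ_pos).trans ?_⟩
  rw [← one_div_pow]
  refine pow_le_pow_left₀ (norm_nonneg _) (ContinuousLinearMap.opNorm_le_bound _ (by positivity)
    fun y => ?_) _
  have := h (resolvent T l y)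
  rw [← e, ← mul_apply_eq_comp, resolvent, Ring.mul_inverse_cancel _ u, one_apply_eq_self] at this
  rw [one_div_mul_eq_div, le_div_iff₀' p]
  exact this

theorem tel (u : ℝ) : 1 / (2 + |u|) ^ 2 ≤ (u + 1) / (1 + |u + 1|) - u / (1 + |u|) := by
  rw [div_sub_div _ _ (by positivity) (by positivity), div_le_div_iff₀ (by positivity) (by positivity)]
  rcases le_total 0 u with h | h
  · rw [abs_of_nonneg h, abs_of_nonneg (by linarith)]
    nlinarith
  · rw [abs_of_nonpos h]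
    rcases le_total 0 (u + 1) with h' | h'
    · rw [abs_of_nonneg h']
      nlinarith [mul_nonneg h' (neg_nonneg.2 h), sq_nonneg u, mul_nonneg (mul_nonneg h' (neg_nonneg.2 h))
        (sq_nonneg (u - 2))]
    · rw [abs_of_nonpos h']
      nlinarith

theorem term {s q u : ℝ} {b z : ℂ} (hs : 2 ≤ s) (hq : q = 1 - 1 / s ^ 2) (hb : ‖b‖ = 1)
    (h : ‖z‖ * u ^ 2 ≤ 2 * s ^ 2 * (‖z‖ - (b * z).re)) :
    ‖cexp (b * z - ‖z‖) - cexp (q * b * z - ‖z‖)‖ ≤ 32 * (1 / (2 + |u|) ^ 2) := by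
  have r1 : (b * z).re ≤ ‖z‖ := (re_le_norm _).trans (by rw [norm_mul, hb, one_mul])
  have q0 : 0 < 1 / s ^ 2 := by positivity
  have q1 : 1 / s ^ 2 ≤ 1 / 4 := one_div_le_one_div_of_le (by norm_num) (by nlinarith)
  have ρ0 := norm_nonneg z
  obtain ⟨δ, hδ⟩ : ∃ δ, δ = ‖z‖ - (b * z).re := ⟨_, rfl⟩
  have d0 : 0 ≤ δ := by linarith
  have ex : ∀ x : ℝ, x ≤ -(δ / 2) → Real.exp x ≤ 1 ∧ Real.exp x * δ ≤ 2 := fun x hx => by
    have a1 := Real.add_one_le_exp (-x)
    have a2 := Real.exp_pos x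
    have : Real.exp x * Real.exp (-x) = 1 := by rw [← Real.exp_add]; simp
    exact ⟨Real.exp_le_one_iff.2 (by linarith), by nlinarith⟩
  have n1 := ex (b * z - ‖z‖).re (by simp only [sub_re, ofReal_re]; linarith)
  have n2 := ex (q * b * z - ‖z‖).re (by
    simp only [sub_re, ofReal_re, mul_assoc, re_ofReal_mul, hq]; nlinarith)
  rw [← norm_exp] at n1 n2
  have t := norm_sub_le (cexp (b * z - ‖z‖)) (cexp (q * b * z - ‖z‖))
  obtain ⟨N, hN⟩ : ∃ N, N = ‖cexp (b * z - ‖z‖) - cexp (q * b * z - ‖z‖)‖ := ⟨_, rfl⟩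
  have N0 : 0 ≤ N := hN ▸ norm_nonneg _
  have k : N * u ^ 2 ≤ 8 := by
    rw [← hδ] at h
    by_cases c : ‖z‖ ≤ s ^ 2
    · have e : cexp (b * z - ‖z‖) - cexp (q * b * z - ‖z‖) =
          cexp (q * b * z - ‖z‖) * (cexp ((1 / s ^ 2 : ℝ) * (b * z)) - 1) := by
        rw [mul_sub, ← exp_add, mul_one, hq]
        congr 2
        push_cast
        ring
      have e1 : ‖((1 / s ^ 2 : ℝ) : ℂ) * (b * z)‖ = 1 / s ^ 2 * ‖z‖ := by
        rw [norm_mul, norm_mul, hb, one_mul, norm_real, Real.norm_of_nonneg q0.le]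
      have e2 := norm_exp_sub_one_le (x := (1 / s ^ 2 : ℝ) * (b * z))
        (by rw [e1, one_div_mul_eq_div, div_le_one (by positivity)]; exact c)
      rw [hN, e, norm_mul]
      rw [e1] at e2
      have E0 := norm_nonneg (cexp (q * b * z - ‖z‖))
      generalize ‖cexp (q * b * z - ‖z‖)‖ = E at *
      calc _ ≤ E * (2 * (1 / s ^ 2 * ‖z‖)) * u ^ 2 := by gcongr
        _ = E * (2 / s ^ 2) * (‖z‖ * u ^ 2) := by ring
        _ ≤ E * (2 / s ^ 2) * (2 * s ^ 2 * δ) := by gcongr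
        _ = 4 * (E * δ) := by field_simp; ring
        _ ≤ 8 := by linarith [n2.2]
    · have c1 : u ^ 2 ≤ 2 * δ := by
        have := not_le.1 c
        nlinarith [sq_nonneg u, mul_nonneg (sub_nonneg.2 this.le) d0]
      rw [← hN] at t
      nlinarith [mul_le_mul_of_nonneg_left c1 N0, mul_le_mul_of_nonneg_right t d0]
  rw [← hN] at t ⊢
  rw [mul_one_div, le_div_iff₀ (by positivity), ← sq_abs u] at *
  nlinarith [mul_nonneg N0 (sq_nonneg (2 - |u|))]

end Pool.Agent.H.MP_389529_an
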